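import Pool.Agent.Lib_helper33.GC.C1t
set_option autoImplicit false

open scoped BigOperators ComplexOrder Kronecker MatrixOrder Topology
open MeasureTheory Set Matrix Filter

namespace Pool.Agent.GC

open Pool.Agent.RC

variable {ι : Type} [Fintype ι] [DecidableEq ι]

theorem cont_pos {r : ℝ} (hr : 0 ≤ r) : Continuous fun x : ℝ => (max x 0) ^ r :=
  (continuous_id.max continuous_const).rpow_const fun _ => Or.inr hr

theorem herm_line {C H : Matrix ι ι ℂ} (hC : C.IsHermitian) (hH : H.IsHermitian) (s : ℝ) :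
    (C - (s : ℂ) • H).IsHermitian := by
  have h := herm_shift hC hH 0 s
  simpa using h

theorem cont_line (C H : Matrix ι ι ℂ) : Continuous fun s : ℝ => C - (s : ℂ) • H :=
  continuous_const.sub (Complex.continuous_ofReal.smul continuous_const)

/-- integrability of a trace function of the pencil `C - s H` -/
theorem line_int {f : ℝ → ℝ} (hf : Continuous f) (hf0 : ∀ x ≤ 0, f x = 0) {C H : Matrix ι ι ℂ}
    (hC : C.IsHermitian) (hH : H.PosDef) :
    IntegrableOn (fun s : ℝ => trF f (C - (s : ℂ) • H)) (Ioi 0) := by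
  obtain ⟨S, hS, hS1⟩ := neg_large hC hH
  have hc : Continuous fun s : ℝ => trF f (C - (s : ℂ) • H) :=
    trF_cont f hf (cont_line C H) fun s => herm_line hC hH.isHermitian s
  have h1 : Ioi (0 : ℝ) = Ioc 0 S ∪ Ioi S := (Ioc_union_Ioi_eq_Ioi hS.le).symm
  rw [h1]
  refine (hc.integrableOn_Icc.mono_set Ioc_subset_Icc_self).union ?_
  refine (integrableOn_zero (s := Ioi S) (μ := volume)).congr_fun (fun s hs => ?_)
    measurableSet_Ioi
  refine (trF_neg (X := C - (s : ℂ) • H) ?_ hf0).symm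
  rw [neg_sub]
  exact hS1 s (le_of_lt hs)

theorem trF_nonneg' {f : ℝ → ℝ} (hf : ∀ x, 0 ≤ f x) (X : Matrix ι ι ℂ) : 0 ≤ trF f X := by
  unfold trF
  split_ifs
  · exact Finset.sum_nonneg fun i _ => hf _
  · exact le_rfl

/-- the function of two variables -/
noncomputable def F2 (k : ℕ) (p : ℝ) (C H : Matrix ι ι ℂ) (s l : ℝ) : ℝ :=
  l ^ (p - 4) * trF (fun x => (max x 0) ^ k) (C - (l : ℂ) • (1 : Matrix ι ι ℂ) - (s : ℂ) • H)

theorem F2_eq (k : ℕ) (p : ℝ) (C H : Matrix ι ι ℂ) (s l : ℝ) : F2 k p C H s l = l ^ (p - 4) *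
    trF (fun x => (max x 0) ^ k) (C - (s : ℂ) • H - (l : ℂ) • (1 : Matrix ι ι ℂ)) := by
  unfold F2
  rw [sub_right_comm]

theorem F2_int (k : ℕ) (hk : k ≠ 0) {p : ℝ} (hp : 3 < p) {C H : Matrix ι ι ℂ}
    (hC : C.IsHermitian) (hH : H.PosDef) :
    Integrable (Function.uncurry (F2 k p C H))
      ((volume.restrict (Ioi (0 : ℝ))).prod (volume.restrict (Ioi (0 : ℝ)))) := by
  have hpk : 0 ≤ p - 3 + k := by
    have : (0 : ℝ) ≤ k := Nat.cast_nonneg k
    linarith
  have hpk0 : p - 3 + k ≠ 0 := by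
    have : (0 : ℝ) ≤ k := Nat.cast_nonneg k
    linarith
  have hm : Measurable (Function.uncurry (F2 k p C H)) := by
    refine Measurable.mul (f := fun z : ℝ × ℝ => z.2 ^ (p - 4)) (by fun_prop)
      (Continuous.measurable ?_)
    refine trF_cont _ ((continuous_id.max continuous_const).pow k) ?_ fun z =>
      herm_shift hC hH.isHermitian z.2 z.1
    exact (continuous_const.sub ((Complex.continuous_ofReal.comp continuous_snd).smul
      continuous_const)).sub ((Complex.continuous_ofReal.comp continuous_fst).smul continuous_const)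
  refine (integrable_prod_iff hm.aestronglyMeasurable).2 ⟨Eventually.of_forall fun s => ?_, ?_⟩
  · have h1 := sup_tr_int k hk hp (herm_line hC hH.isHermitian s)
    refine h1.congr (Eventually.of_forall fun l => ?_)
    exact (F2_eq k p C H s l).symm
  · have h2 := (line_int (f := fun x => (max x 0) ^ (p - 3 + k)) (cont_pos hpk) (fun x hx => by
      rw [max_eq_right hx, Real.zero_rpow hpk0]) hC hH).const_mul (bb k p)
    refine h2.congr (Eventually.of_forall fun s => ?_)
    show bb k p * trF (fun x => (max x 0) ^ (p - 3 + k)) (C - (s : ℂ) • H) =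
      ∫ l in Ioi (0 : ℝ), ‖F2 k p C H s l‖
    rw [← sup_tr k hk hp (herm_line hC hH.isHermitian s)]
    refine setIntegral_congr_fun measurableSet_Ioi fun l hl => ?_
    rw [Real.norm_eq_abs, F2_eq, abs_of_nonneg]
    exact mul_nonneg (Real.rpow_nonneg (le_of_lt hl) _) (trF_nonneg' (fun x =>
      pow_nonneg (le_max_right _ _) _) _)

/-- the superposition of the right sides -/
theorem sup_line (k : ℕ) (hk : k ≠ 0) {p : ℝ} (hp : 3 < p) {C H : Matrix ι ι ℂ}
    (hC : C.IsHermitian) (hH : H.PosDef) :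
    IntegrableOn (fun l : ℝ => l ^ (p - 4) * ∫ s in Ioi (0 : ℝ), trF (fun x => (max x 0) ^ k)
      (C - (l : ℂ) • (1 : Matrix ι ι ℂ) - (s : ℂ) • H)) (Ioi 0) ∧
    ∫ l in Ioi (0 : ℝ), l ^ (p - 4) * ∫ s in Ioi (0 : ℝ), trF (fun x => (max x 0) ^ k)
      (C - (l : ℂ) • (1 : Matrix ι ι ℂ) - (s : ℂ) • H) =
      bb k p * ∫ s in Ioi (0 : ℝ), trF (fun x => (max x 0) ^ (p - 3 + k)) (C - (s : ℂ) • H) := by
  have hi := F2_int k hk hp hC hH
  have e : ∀ l : ℝ, ∫ s in Ioi (0 : ℝ), F2 k p C H s l = l ^ (p - 4) * ∫ s in Ioi (0 : ℝ),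
      trF (fun x => (max x 0) ^ k) (C - (l : ℂ) • (1 : Matrix ι ι ℂ) - (s : ℂ) • H) := fun l => by
    rw [← integral_const_mul]
    rfl
  constructor
  · refine hi.integral_prod_right.congr (Eventually.of_forall fun l => ?_)
    exact e l
  · have h1 := integral_integral_swap hi
    rw [← integral_const_mul]
    have e2 : ∀ s : ℝ, ∫ l in Ioi (0 : ℝ), F2 k p C H s l =
        bb k p * trF (fun x => (max x 0) ^ (p - 3 + k)) (C - (s : ℂ) • H) := fun s => by
      rw [← sup_tr k hk hp (herm_line hC hH.isHermitian s)]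
      exact integral_congr_ae (Eventually.of_forall fun l => F2_eq k p C H s l)
    rw [integral_congr_ae (Eventually.of_forall fun l => (e l).symm), ← h1,
      integral_congr_ae (Eventually.of_forall e2)]

/-- BLOCK C1: the superposition of the truncated inequalities -/
theorem sup_main {p : ℝ} (hp : 3 < p) {κ J : Type} [Fintype κ] [Fintype J] (g a : κ → ℝ)
    (t : J → ℝ) {C : Matrix ι ι ℂ} (H : J → Matrix ι ι ℂ) (hC : C.IsHermitian)
    (hH : ∀ j, (H j).PosDef)
    (h : ∀ l : ℝ, 0 < l → ∑ j, t j * (4 * ∫ s in Ioi (0 : ℝ), trF (fun x => (max x 0) ^ 3)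
      (C - (l : ℂ) • (1 : Matrix ι ι ℂ) - (s : ℂ) • H j)) ≤ ∑ k, (max (g k - l) 0) ^ 4 * a k) :
    ∑ j, t j * ((p + 1) * ∫ s in Ioi (0 : ℝ), trF (fun x => (max x 0) ^ p)
      (C - (s : ℂ) • H j)) ≤ ∑ k, (max (g k) 0) ^ (p + 1) * a k := by
  have hb : 0 < bb 4 p := bb_pos 4 (by norm_num) hp
  have h3 := fun j => sup_line 3 (by norm_num) hp hC (hH j)
  have hi1 : IntegrableOn (fun l : ℝ => ∑ j, (t j * 4) * (l ^ (p - 4) * ∫ s in Ioi (0 : ℝ),
      trF (fun x => (max x 0) ^ 3) (C - (l : ℂ) • (1 : Matrix ι ι ℂ) - (s : ℂ) • H j))) (Ioi 0) :=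
    integrable_finsetSum _ fun j _ => (h3 j).1.const_mul _
  have hi2 : IntegrableOn (fun l : ℝ => ∑ k, a k * (l ^ (p - 4) * (max (g k - l) 0) ^ 4)) (Ioi 0) :=
    integrable_finsetSum _ fun k _ => (sup_int 4 (by norm_num) hp (g k)).const_mul _
  have hle := setIntegral_mono_on hi1 hi2 measurableSet_Ioi (fun l hl => by
    have h4 := mul_le_mul_of_nonneg_left (h l hl) (Real.rpow_nonneg (le_of_lt hl) (p - 4))
    rw [Finset.mul_sum, Finset.mul_sum] at h4
    refine (le_of_eq ?_).trans (h4.trans (le_of_eq ?_))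
    · exact Finset.sum_congr rfl fun j _ => by ring
    · exact Finset.sum_congr rfl fun k _ => by ring)
  rw [integral_finsetSum _ fun j _ => (h3 j).1.const_mul _,
    integral_finsetSum _ fun k _ => (sup_int 4 (by norm_num) hp (g k)).const_mul _] at hle
  simp only [integral_const_mul] at hle
  have e1 : ∀ j, t j * 4 * (∫ l in Ioi (0 : ℝ), l ^ (p - 4) * ∫ s in Ioi (0 : ℝ),
      trF (fun x => (max x 0) ^ 3) (C - (l : ℂ) • (1 : Matrix ι ι ℂ) - (s : ℂ) • H j)) =
      bb 4 p * (t j * ((p + 1) * ∫ s in Ioi (0 : ℝ), trF (fun x => (max x 0) ^ p)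
      (C - (s : ℂ) • H j))) := by
    intro j
    rw [(h3 j).2]
    have e0 : p - 3 + ((3 : ℕ) : ℝ) = p := by push_cast; ring
    rw [e0]
    have := bb_rel hp
    linear_combination (t j * ∫ s in Ioi (0 : ℝ), trF (fun x => (max x 0) ^ p)
      (C - (s : ℂ) • H j)) * this
  have e2 : ∀ k, a k * (∫ l in Ioi (0 : ℝ), l ^ (p - 4) * (max (g k - l) 0) ^ 4) =
      bb 4 p * ((max (g k) 0) ^ (p + 1) * a k) := by
    intro k
    rw [sup_eq 4 (by norm_num) hp]
    have e0 : p - 3 + ((4 : ℕ) : ℝ) = p + 1 := by push_cast; ring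
    rw [e0]
    ring
  rw [Finset.sum_congr rfl fun j _ => e1 j, Finset.sum_congr rfl fun k _ => e2 k,
    ← Finset.mul_sum, ← Finset.mul_sum] at hle
  exact le_of_mul_le_mul_left hle hb

end Pool.Agent.GC
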