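import Pool.Agent.Lib_helper33.GC.C2
set_option autoImplicit false

open scoped BigOperators ComplexOrder Kronecker MatrixOrder Topology
open MeasureTheory Set Matrix Filter

namespace Pool.Agent.GC

open Pool.Agent.RC

variable {n : Type} [Fintype n] [DecidableEq n]

/-- the integral representation for one vector and one scale -/
theorem qone {q : ℝ} (hq : q ∈ Ioo (1 : ℝ) 2) {X : Matrix n n ℂ} (hX : X.PosDef) {g : ℝ}
    (hg : 0 < g) (w : n → ℂ) :
    IntegrableOn (fun σ : ℝ => σ ^ q * g ^ (q + 1) *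
      (qf ((X + (σ * g) • (1 : Matrix n n ℂ))⁻¹) w - qf 1 w / (g * σ) +
        qf X w / (g * σ) ^ 2)) (Ioi 0) ∧
    qf (cfc (fun x : ℝ => x ^ q) X) w =
      cq q * ∫ σ in Ioi (0 : ℝ), σ ^ q * g ^ (q + 1) *
      (qf ((X + (σ * g) • (1 : Matrix n n ℂ))⁻¹) w - qf 1 w / (g * σ) +
        qf X w / (g * σ) ^ 2) := by
  obtain ⟨h1, h2⟩ := qside hq hX (κ := Unit) (g := fun _ => g) (fun _ => hg) (fun _ => w)
  have e : ∀ σ : ℝ, 0 < σ → g ^ (-2 : ℝ) * (σ ^ q * ∑ _k : Unit, (g ^ (q + 3) *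
      qf ((X + ((σ * g : ℝ) : ℂ) • (1 : Matrix n n ℂ))⁻¹) w -
      g ^ (q + 2) * qf 1 w / σ + g ^ (q + 1) * qf X w / σ ^ 2)) = σ ^ q * g ^ (q + 1) *
      (qf ((X + (σ * g) • (1 : Matrix n n ℂ))⁻¹) w - qf 1 w / (g * σ) +
        qf X w / (g * σ) ^ 2) := by
    intro σ hσ
    have e0 : (σ * g) • (1 : Matrix n n ℂ) = ((σ * g : ℝ) : ℂ) • (1 : Matrix n n ℂ) := by
      ext i j
      simp
    have e3 : g ^ (q + 3) = g ^ (q + 1) * g ^ 2 := by
      rw [← Real.rpow_natCast, ← Real.rpow_add hg]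
      congr 1
      push_cast
      ring
    have e2 : g ^ (q + 2) = g ^ (q + 1) * g := by
      rw [← Real.rpow_add_one hg.ne']
      congr 1
      ring
    have e4 : g ^ (-2 : ℝ) = (g ^ 2)⁻¹ := by
      rw [Real.rpow_neg hg.le]
      norm_num
    rw [e0, Fintype.sum_unique, e3, e2, e4]
    field_simp
  refine ⟨(IntegrableOn.congr_fun (h1.const_mul (g ^ (-2 : ℝ))) (fun σ hσ => ?_)
    measurableSet_Ioi), ?_⟩
  · exact e σ hσ
  · rw [← setIntegral_congr_fun measurableSet_Ioi e, integral_const_mul, ← mul_assoc,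
      mul_comm (cq q), mul_assoc, ← h2, Fintype.sum_unique, Real.rpow_neg hg.le]
    norm_num
    field_simp

end Pool.Agent.GC
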