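import Pool.Agent.Lib_helper31.GC34.Defs
import Pool.Agent.Lib_helper33.GC.C1f
import Pool.Agent.Lib_helper33.GC.C2o
set_option autoImplicit false

/-! Blocks C1 and C2 in the chair's form -/

open scoped BigOperators ComplexOrder Kronecker MatrixOrder Topology
open MeasureTheory Set Matrix Filter

namespace Pool.Agent.Lib_helper33.GC34

open Pool.Agent.RC Pool.Agent.GC34

variable {ι κ : Type} [Fintype ι] [DecidableEq ι] [Fintype κ] [DecidableEq κ]

omit [Fintype ι] [DecidableEq ι] in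
theorem H33.rsmul (r : ℝ) (X : Matrix ι ι ℂ) : r • X = (r : ℂ) • X := by
  ext i j
  simp

theorem H33.tf_eq {M : Matrix ι ι ℂ} (h : M.IsHermitian) (f : ℝ → ℝ) : tf f M = trF f M := by
  unfold tf trF
  rw [dif_pos h, h.cfc_eq, Matrix.IsHermitian.cfc, Unitary.conjStarAlgAut_apply]
  rw [Matrix.mul_assoc, trace_mul_comm, Matrix.mul_assoc]
  have h1 : (star (h.eigenvectorUnitary : Matrix ι ι ℂ)) * (h.eigenvectorUnitary : Matrix ι ι ℂ) =
      1 := Matrix.mem_unitaryGroup_iff'.1 h.eigenvectorUnitary.2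
  rw [h1, Matrix.mul_one, trace_diagonal]
  simp

omit [Fintype κ] in
theorem H33.dg_herm (g : κ → ℝ) : (dg g).IsHermitian := by
  unfold dg
  rw [Matrix.IsHermitian, Matrix.diagonal_conjTranspose]
  congr 1
  ext k
  simp

theorem H33.Rr_eq (p : ℝ) {F E : Matrix ι ι ℂ} (hF : F.IsHermitian) (hE : E.IsHermitian) :
    Rr p F E = (p + 1) * ∫ s in Ioi (0 : ℝ), trF (fun x => (max x 0) ^ p)
      (F - (s : ℂ) • E) := by
  unfold Rr
  congr 1
  refine setIntegral_congr_fun measurableSet_Ioi fun s _ => ?_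
  show tf _ _ = _
  rw [H33.rsmul, H33.tf_eq (GC.herm_line hF hE s)]

theorem H33.J3_eq {F E : Matrix ι ι ℂ} (hF : F.IsHermitian) (hE : E.IsHermitian) :
    J3 F E = ∫ s in Ioi (0 : ℝ), trF (fun x => (max x 0) ^ 3) (F - (s : ℂ) • E) := by
  unfold J3
  refine setIntegral_congr_fun measurableSet_Ioi fun s _ => ?_
  show tf _ _ = _
  rw [H33.rsmul, H33.tf_eq (GC.herm_line hF hE s)]

omit [Fintype κ] [DecidableEq κ] in
/-- `C + β D > 0` for a strict pair and `|β| < 1` -/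
theorem H33.strict_pd {C D : Matrix κ κ ℂ} (h : Strict C D) {b : ℝ} (h1 : -1 < b) (h2 : b < 1) :
    (C + b • D).PosDef := by
  have e : C + b • D = ((1 + b) / 2) • (C + D) + ((1 - b) / 2) • (C - D) := by
    rw [H33.rsmul, H33.rsmul, H33.rsmul]
    ext i j
    simp only [Matrix.add_apply, Matrix.sub_apply, Matrix.smul_apply, smul_eq_mul]
    push_cast
    ring
  rw [e]
  exact (h.add.smul (by linarith)).add (h.sub.smul (by linarith))

omit [Fintype κ] in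
/-- the function `H = C + lam D - (lam - η) D` of a frame is positive definite -/
theorem H33.frame_pd {g : κ → ℝ} {D : Matrix κ κ ℂ} {lam : ℝ} (h : Strict (dg g - lam • D) D)
    {b : ℝ} (h1 : -1 < b) (h2 : b < 1) : (dg g - (lam - b) • D).PosDef := by
  have e : dg g - (lam - b) • D = (dg g - lam • D) + b • D := by
    rw [sub_smul]
    abel
  rw [e]
  exact H33.strict_pd h h1 h2

/-- BLOCK C1 with the inequality for every `μ` as a hypothesis -/
theorem pw_of {A B : Matrix ι ι ℂ} {D : Matrix κ κ ℂ} {g : κ → ℝ} {lam σ : ℝ}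
    {S : Matrix ι ι ℂ} {η : ι → ℝ} (h : Frame A B D g lam σ S η) (v : ι → ℂ) {p : ℝ}
    (hp : 3 < p) (hmu : ∀ μ : ℝ, 0 < μ →
      ∑ i, ‖(S⁻¹ *ᵥ v) i‖ ^ 2 * (4 * J3 (dg g - μ • 1) (dg g - (lam - η i) • D)) ≤
      Qf A B (dg g - lam • D) D g v σ (fun c => (max (c - μ) 0) ^ 4)) :
    ∑ i, ‖(S⁻¹ *ᵥ v) i‖ ^ 2 * Rr p (dg g) (dg g - (lam - η i) • D) ≤
    Qf A B (dg g - lam • D) D g v σ (fun c => c ^ (p + 1)) := by
  have hg : (dg g).IsHermitian := H33.dg_herm g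
  have hH : ∀ i, (dg g - (lam - η i) • D).PosDef := fun i =>
    H33.frame_pd h.W (h.η_gt i) ((h.η_le i).trans_lt h.lam_lt)
  have key := GC.sup_main hp g (fun k =>
    qf ((A ⊗ₖ (dg g - lam • D) + B ⊗ₖ D + (σ * g k) • (1 : Matrix (ι × κ) (ι × κ) ℂ))⁻¹) (wv v k))
    (fun i => ‖(S⁻¹ *ᵥ v) i‖ ^ 2) (C := dg g) (fun i => dg g - (lam - η i) • D) hg hH
    (fun l hl => by
      refine (le_of_eq ?_).trans ((hmu l hl).trans (le_of_eq ?_))
      · refine Finset.sum_congr rfl fun i _ => ?_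
        rw [H33.rsmul l (1 : Matrix κ κ ℂ), H33.J3_eq (by
          have := GC.herm_line hg (Matrix.isHermitian_one (n := κ) (α := ℂ)) l
          exact this) (hH i).isHermitian]
      · unfold Qf
        rfl)
  refine (le_of_eq ?_).trans (key.trans (le_of_eq ?_))
  · refine Finset.sum_congr rfl fun i _ => ?_
    rw [H33.Rr_eq p hg (hH i).isHermitian]
  · unfold Qf
    refine Finset.sum_congr rfl fun k _ => ?_
    rw [max_eq_left (h.gpos k).le]

/-! ### BLOCK C2 -/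

omit [DecidableEq ι] in
theorem H33.qf_eq (X : Matrix ι ι ℂ) (w : ι → ℂ) : qf X w = GC.qf X w := rfl

theorem H33.cq_eq {q : ℝ} (h1 : 1 < q) (h2 : q < 2) : cq q = GC.cq q := by
  have h := GC.kq_eq (q := q) ⟨h1, h2⟩ one_pos zero_le_one
  have e : ∫ σ in Ioi (0 : ℝ), GC.kq q 1 1 σ =
      ∫ s in Ioi (0 : ℝ), s ^ q * (1 / (s + 1) - 1 / s + 1 / s ^ 2) := by
    refine setIntegral_congr_fun measurableSet_Ioi fun σ _ => ?_
    show GC.kq q 1 1 σ = _
    unfold GC.kq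
    simp only [Real.one_rpow, mul_one, one_mul, one_div, add_comm (1 : ℝ) σ]
  rw [e, Real.one_rpow, one_pow, one_mul] at h
  unfold cq
  exact inv_eq_of_mul_eq_one_left h.symm

theorem cq_pos {q : ℝ} (h1 : 1 < q) (h2 : q < 2) : 0 < cq q := by
  rw [H33.cq_eq h1 h2]
  exact GC.cq_pos ⟨h1, h2⟩

theorem powq {q : ℝ} (h1 : 1 < q) (h2 : q < 2) {X : Matrix ι ι ℂ} (hX : X.PosDef) (w : ι → ℂ)
    {g : ℝ} (hg : 0 < g) :
    IntegrableOn (fun σ : ℝ => σ ^ q * (g ^ (q + 1) *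
      (qf ((X + (σ * g) • (1 : Matrix ι ι ℂ))⁻¹) w - qf 1 w / (g * σ) + qf X w / (g * σ) ^ 2)))
      (Ioi 0) ∧
    qf (cfc (fun x : ℝ => x ^ q) X) w = cq q * ∫ σ in Ioi (0 : ℝ), σ ^ q * (g ^ (q + 1) *
      (qf ((X + (σ * g) • (1 : Matrix ι ι ℂ))⁻¹) w - qf 1 w / (g * σ) + qf X w / (g * σ) ^ 2)) := by
  have h3 := GC.qone (q := q) ⟨h1, h2⟩ hX hg w
  rw [H33.cq_eq h1 h2]
  simp only [H33.qf_eq]
  simpa only [mul_assoc] using h3

end Pool.Agent.Lib_helper33.GC34
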