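import Pool.Agent.Lib_helper92.RC.Trf
set_option autoImplicit false

open scoped BigOperators ComplexOrder Kronecker MatrixOrder Topology
open MeasureTheory Set Matrix Filter

namespace Pool.Agent.GC

open Pool.Agent.RC

/-- `∫ u^(p-4) (1 - u)_+^k du` -/
noncomputable def bb (k : ℕ) (p : ℝ) : ℝ :=
  ∫ u in Ioi (0 : ℝ), u ^ (p - 4) * (max (1 - u) 0) ^ k

theorem sc_eq (k : ℕ) (p : ℝ) {x : ℝ} (hx : 0 < x) {u : ℝ} (hu : 0 < u) :
    (x * u) ^ (p - 4) * (max (x - x * u) 0) ^ k =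
      x ^ (p - 4 + k) * (u ^ (p - 4) * (max (1 - u) 0) ^ k) := by
  have e1 : max (x - x * u) 0 = x * max (1 - u) 0 := by
    rw [mul_max_of_nonneg _ _ hx.le, mul_zero]
    congr 1
    ring
  rw [e1, mul_pow, Real.mul_rpow hx.le hu.le, Real.rpow_add hx, Real.rpow_natCast]
  ring

/-- integrability of the kernel on the unit interval -/
theorem bb_int (k : ℕ) {p : ℝ} (hp : 3 < p) :
    IntegrableOn (fun u : ℝ => u ^ (p - 4) * (max (1 - u) 0) ^ k) (Ioc 0 1) := by
  have h1 : IntegrableOn (fun u : ℝ => u ^ (p - 4)) (Ioc 0 1) := by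
    rw [← intervalIntegrable_iff_integrableOn_Ioc_of_le zero_le_one]
    exact intervalIntegral.intervalIntegrable_rpow' (by linarith)
  refine Integrable.mono' h1 ?_ ?_
  · refine AEStronglyMeasurable.mul h1.1 ?_
    exact (Continuous.aestronglyMeasurable (by fun_prop))
  · refine (ae_restrict_iff' measurableSet_Ioc).2 (Eventually.of_forall fun u hu => ?_)
    have h2 : 0 ≤ max (1 - u) 0 := le_max_right _ _
    have h3 : max (1 - u) 0 ≤ 1 := max_le (by linarith [hu.1]) zero_le_one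
    rw [Real.norm_eq_abs, abs_of_nonneg (mul_nonneg (Real.rpow_nonneg hu.1.le _) (pow_nonneg h2 _))]
    exact mul_le_of_le_one_right (Real.rpow_nonneg hu.1.le _) (pow_le_one₀ h2 h3)

theorem bb_zero (k : ℕ) (hk : k ≠ 0) {u : ℝ} (hu : 1 < u) (p : ℝ) :
    u ^ (p - 4) * (max (1 - u) 0) ^ k = 0 := by
  rw [max_eq_right (by linarith), zero_pow hk, mul_zero]

theorem bb_int' (k : ℕ) (hk : k ≠ 0) {p : ℝ} (hp : 3 < p) :
    IntegrableOn (fun u : ℝ => u ^ (p - 4) * (max (1 - u) 0) ^ k) (Ioi 0) := by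
  have h1 : Ioi (0 : ℝ) = Ioc 0 1 ∪ Ioi 1 := (Ioc_union_Ioi_eq_Ioi zero_le_one).symm
  rw [h1]
  refine (bb_int k hp).union ?_
  refine (integrableOn_zero (s := Ioi (1 : ℝ)) (μ := volume)).congr_fun (fun u hu => ?_)
    measurableSet_Ioi
  exact (bb_zero k hk hu p).symm

theorem bb_eq (k : ℕ) (hk : k ≠ 0) {p : ℝ} (hp : 3 < p) :
    bb k p = ∫ u in (0 : ℝ)..1, u ^ (p - 4) * (max (1 - u) 0) ^ k := by
  have h1 : Ioi (0 : ℝ) = Ioc 0 1 ∪ Ioi 1 := (Ioc_union_Ioi_eq_Ioi zero_le_one).symm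
  have h0 := bb_int' k hk hp
  unfold bb
  rw [intervalIntegral.integral_of_le zero_le_one, h1,
    setIntegral_union (by rw [Set.disjoint_left]; exact fun x h1 h2 => absurd h1.2 (not_le.2 h2))
      measurableSet_Ioi (bb_int k hp) (h0.mono_set (Ioi_subset_Ioi zero_le_one))]
  rw [setIntegral_eq_zero_of_forall_eq_zero (t := Ioi (1 : ℝ)) (fun u hu => bb_zero k hk hu p),
    add_zero]

theorem bb_pos (k : ℕ) (hk : k ≠ 0) {p : ℝ} (hp : 3 < p) : 0 < bb k p := by
  rw [bb_eq k hk hp]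
  refine intervalIntegral.intervalIntegral_pos_of_pos_on ?_ (fun u hu => ?_) zero_lt_one
  · rw [intervalIntegrable_iff_integrableOn_Ioc_of_le zero_le_one]
    exact bb_int k hp
  · exact mul_pos (Real.rpow_pos_of_pos hu.1 _) (pow_pos (lt_max_of_lt_left (by linarith [hu.2])) _)

/-- integration by parts -/
theorem bb_rel {p : ℝ} (hp : 3 < p) : 4 * bb 3 p = (p + 1) * bb 4 p := by
  have hd : ∀ u ∈ Ioo (0 : ℝ) 1, HasDerivAt (fun u : ℝ => u ^ (p - 3) * (max (1 - u) 0) ^ 4)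
      ((p + 1) * (u ^ (p - 4) * (max (1 - u) 0) ^ 4) -
        4 * (u ^ (p - 4) * (max (1 - u) 0) ^ 3)) u := by
    intro u hu
    have h1 : HasDerivAt (fun u : ℝ => u ^ (p - 3)) ((p - 3) * u ^ (p - 3 - 1)) u :=
      Real.hasDerivAt_rpow_const (Or.inl hu.1.ne')
    have h2 : HasDerivAt (fun u : ℝ => (1 - u) ^ 4) (4 * (1 - u) ^ 3 * (-1)) u := by
      have h := ((hasDerivAt_id u).const_sub 1).pow 4
      refine HasDerivAt.congr_deriv (f := fun u : ℝ => (1 - u) ^ 4) h ?_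
      norm_num
    have h3 : HasDerivAt (fun u : ℝ => (max (1 - u) 0) ^ 4) (4 * (1 - u) ^ 3 * (-1)) u := by
      refine h2.congr_of_eventuallyEq ?_
      filter_upwards [Iio_mem_nhds hu.2] with v hv
      rw [max_eq_left (sub_nonneg.2 (le_of_lt hv))]
    refine (h1.mul h3).congr_deriv ?_
    rw [max_eq_left (sub_nonneg.2 hu.2.le)]
    have e1 : u ^ (p - 3) = u * u ^ (p - 4) := by
      rw [← Real.rpow_one_add' hu.1.le (by linarith)]
      congr 1
      ring
    have e2 : u ^ (p - 3 - 1) = u ^ (p - 4) := by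
      congr 1
      ring
    rw [e1, e2]
    ring
  have hi4 : IntervalIntegrable (fun u : ℝ => (p + 1) * (u ^ (p - 4) * (max (1 - u) 0) ^ 4))
      volume 0 1 := by
    rw [intervalIntegrable_iff_integrableOn_Ioc_of_le zero_le_one]
    exact (bb_int 4 hp).const_mul _
  have hi3 : IntervalIntegrable (fun u : ℝ => 4 * (u ^ (p - 4) * (max (1 - u) 0) ^ 3))
      volume 0 1 := by
    rw [intervalIntegrable_iff_integrableOn_Ioc_of_le zero_le_one]
    exact (bb_int 3 hp).const_mul _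
  have h := intervalIntegral.integral_eq_sub_of_hasDerivAt_of_le (a := (0 : ℝ)) (b := 1)
    zero_le_one (f := fun u : ℝ => u ^ (p - 3) * (max (1 - u) 0) ^ 4) ?_ hd (hi4.sub hi3)
  · rw [intervalIntegral.integral_sub hi4 hi3, intervalIntegral.integral_const_mul,
      intervalIntegral.integral_const_mul, ← bb_eq 4 (by norm_num) hp,
      ← bb_eq 3 (by norm_num) hp] at h
    have e : (1 : ℝ) ^ (p - 3) * (max (1 - 1) 0) ^ 4 - (0 : ℝ) ^ (p - 3) * (max (1 - 0) 0) ^ 4 = 0 := by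
      rw [Real.zero_rpow (by linarith)]
      simp
    rw [e] at h
    linarith
  · refine ContinuousOn.mul (fun u _ => ?_) (by fun_prop)
    exact (Real.continuousAt_rpow_const u (p - 3) (Or.inr (by linarith))).continuousWithinAt

/-- the superposition of truncated powers -/
theorem sup_int (k : ℕ) (hk : k ≠ 0) {p : ℝ} (hp : 3 < p) (x : ℝ) :
    IntegrableOn (fun l : ℝ => l ^ (p - 4) * (max (x - l) 0) ^ k) (Ioi 0) := by
  rcases le_or_gt x 0 with hx | hx
  · refine (integrableOn_zero (s := Ioi (0 : ℝ)) (μ := volume)).congr_fun (fun u hu => ?_)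
      measurableSet_Ioi
    have h1 : x - u ≤ 0 := by linarith [mem_Ioi.1 hu]
    show 0 = u ^ (p - 4) * (max (x - u) 0) ^ k
    rw [max_eq_right h1, zero_pow hk, mul_zero]
  · have h1 := (integrableOn_Ioi_comp_mul_left_iff
      (fun l : ℝ => l ^ (p - 4) * (max (x - l) 0) ^ k) 0 hx).1 (by
        have h0 : IntegrableOn (fun u : ℝ => x ^ (p - 4 + k) * (u ^ (p - 4) * (max (1 - u) 0) ^ k))
            (Ioi 0) := (bb_int' k hk hp).const_mul _
        refine h0.congr_fun (fun u hu => ?_) measurableSet_Ioi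
        exact (sc_eq k p hx hu).symm)
    rwa [mul_zero] at h1

theorem sup_eq (k : ℕ) (hk : k ≠ 0) {p : ℝ} (hp : 3 < p) (x : ℝ) :
    ∫ l in Ioi (0 : ℝ), l ^ (p - 4) * (max (x - l) 0) ^ k = bb k p * (max x 0) ^ (p - 3 + k) := by
  rcases le_or_gt x 0 with hx | hx
  · rw [max_eq_right hx, Real.zero_rpow (by
      have : (0 : ℝ) ≤ k := Nat.cast_nonneg k
      linarith), mul_zero]
    refine setIntegral_eq_zero_of_forall_eq_zero fun u hu => ?_
    have h1 : x - u ≤ 0 := by linarith [mem_Ioi.1 hu]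
    rw [max_eq_right h1, zero_pow hk, mul_zero]
  · have h1 := integral_comp_mul_left_Ioi (fun l : ℝ => l ^ (p - 4) * (max (x - l) 0) ^ k) 0 hx
    rw [mul_zero] at h1
    have h2 : ∫ u in Ioi (0 : ℝ), (x * u) ^ (p - 4) * (max (x - x * u) 0) ^ k =
        x ^ (p - 4 + k) * bb k p := by
      unfold bb
      rw [← integral_const_mul]
      exact setIntegral_congr_fun measurableSet_Ioi fun u hu => sc_eq k p hx hu
    have h3 : ∫ l in Ioi (0 : ℝ), l ^ (p - 4) * (max (x - l) 0) ^ k =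
        x * ∫ u in Ioi (0 : ℝ), (x * u) ^ (p - 4) * (max (x - x * u) 0) ^ k := by
      rw [h1, smul_eq_mul, mul_inv_cancel_left₀ hx.ne']
    rw [h3, h2, max_eq_left hx.le]
    have e : x ^ (p - 3 + k) = x * x ^ (p - 4 + k) := by
      rw [← Real.rpow_one_add' hx.le (by
      have : (0 : ℝ) ≤ k := Nat.cast_nonneg k
      linarith)]
      congr 1
      ring
    rw [e]
    ring

end Pool.Agent.GC
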