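import Pool.Agent.Lib_helper33.GC.C1
set_option autoImplicit false

open scoped BigOperators ComplexOrder Kronecker MatrixOrder Topology
open MeasureTheory Set Matrix Filter

namespace Pool.Agent.GC

open Pool.Agent.RC

variable {ι : Type} [Fintype ι] [DecidableEq ι]

theorem trF_shift (f : ℝ → ℝ) {X : Matrix ι ι ℂ} (h : X.IsHermitian) (l : ℝ) :
    trF f (X - (l : ℂ) • (1 : Matrix ι ι ℂ)) = ∑ i, f (h.eigenvalues i - l) := by
  obtain ⟨U, h1, h2, h3⟩ := SER.exists_diag_eig h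
  have e1 : Matrix.diagonal (fun i => ((h.eigenvalues i - l : ℝ) : ℂ)) =
      Matrix.diagonal (fun i => (h.eigenvalues i : ℂ)) - (l : ℂ) • (1 : Matrix ι ι ℂ) := by
    ext i j
    by_cases hij : i = j
    · subst hij; simp
    · simp [hij]
  have e : X - (l : ℂ) • (1 : Matrix ι ι ℂ) =
      U * (Matrix.diagonal (fun i => ((h.eigenvalues i - l : ℝ) : ℂ))) * Uᴴ := by
    rw [e1, ← h3]
    have e2 : U * (Uᴴ * X * U - (l : ℂ) • (1 : Matrix ι ι ℂ)) * Uᴴ =
        (U * Uᴴ) * X * (U * Uᴴ) - (l : ℂ) • (U * Uᴴ) := by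
      rw [mul_sub, sub_mul, Matrix.mul_smul, Matrix.smul_mul, mul_one]
      congr 1
      noncomm_ring
    rw [e2, h1, one_mul, mul_one]
  rw [e]
  exact TRF.trF_conj f h2 _

theorem trF_eq (f : ℝ → ℝ) {X : Matrix ι ι ℂ} (h : X.IsHermitian) :
    trF f X = ∑ i, f (h.eigenvalues i) := by
  unfold trF
  rw [dif_pos h]

theorem sup_tr_int (k : ℕ) (hk : k ≠ 0) {p : ℝ} (hp : 3 < p) {X : Matrix ι ι ℂ}
    (h : X.IsHermitian) :
    IntegrableOn (fun l : ℝ => l ^ (p - 4) *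
      trF (fun x => (max x 0) ^ k) (X - (l : ℂ) • (1 : Matrix ι ι ℂ))) (Ioi 0) := by
  have e : (fun l : ℝ => l ^ (p - 4) *
      trF (fun x => (max x 0) ^ k) (X - (l : ℂ) • (1 : Matrix ι ι ℂ))) =
      fun l : ℝ => ∑ i, l ^ (p - 4) * (max (h.eigenvalues i - l) 0) ^ k := by
    funext l
    rw [trF_shift _ h, Finset.mul_sum]
  rw [e]
  exact integrable_finsetSum _ fun i _ => sup_int k hk hp _

/-- the superposition, for traces -/
theorem sup_tr (k : ℕ) (hk : k ≠ 0) {p : ℝ} (hp : 3 < p) {X : Matrix ι ι ℂ}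
    (h : X.IsHermitian) :
    ∫ l in Ioi (0 : ℝ), l ^ (p - 4) *
      trF (fun x => (max x 0) ^ k) (X - (l : ℂ) • (1 : Matrix ι ι ℂ)) =
      bb k p * trF (fun x => (max x 0) ^ (p - 3 + k)) X := by
  have e : (fun l : ℝ => l ^ (p - 4) *
      trF (fun x => (max x 0) ^ k) (X - (l : ℂ) • (1 : Matrix ι ι ℂ))) =
      fun l : ℝ => ∑ i, l ^ (p - 4) * (max (h.eigenvalues i - l) 0) ^ k := by
    funext l
    rw [trF_shift _ h, Finset.mul_sum]
  rw [e, integral_finsetSum _ fun i _ => sup_int k hk hp _, trF_eq _ h, Finset.mul_sum]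
  exact Finset.sum_congr rfl fun i _ => sup_eq k hk hp _

/-- `trF f` along a continuous hermitian family -/
theorem trF_cont (f : ℝ → ℝ) (hf : Continuous f) {T : Type*} [TopologicalSpace T]
    [FirstCountableTopology T] {M : T → Matrix ι ι ℂ} (hM : Continuous M)
    (h : ∀ t, (M t).IsHermitian) : Continuous fun t => trF f (M t) := by
  have h1 : SeqContinuous fun t => trF f (M t) := fun u t hu =>
    tendsto_trF f hf _ _ (fun j => h (u j)) (h t) ((hM.tendsto t).comp hu)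
  exact h1.continuous

theorem herm_shift {C H : Matrix ι ι ℂ} (hC : C.IsHermitian) (hH : H.IsHermitian) (l s : ℝ) :
    (C - (l : ℂ) • (1 : Matrix ι ι ℂ) - (s : ℂ) • H).IsHermitian := by
  have h1 : ∀ (r : ℝ) {Y : Matrix ι ι ℂ}, Y.IsHermitian → ((r : ℂ) • Y).IsHermitian := by
    intro r Y hY
    unfold Matrix.IsHermitian
    rw [Matrix.conjTranspose_smul, hY.eq]
    simp
  exact (hC.sub (h1 l Matrix.isHermitian_one)).sub (h1 s hH)

theorem shift_eq {X : Matrix ι ι ℂ} (h : X.IsHermitian) :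
    ∃ U : Matrix ι ι ℂ, U * Uᴴ = 1 ∧ Uᴴ * U = 1 ∧ ∀ l : ℝ, X - (l : ℂ) • (1 : Matrix ι ι ℂ) =
      U * (Matrix.diagonal (fun i => ((h.eigenvalues i - l : ℝ) : ℂ))) * Uᴴ := by
  obtain ⟨U, h1, h2, h3⟩ := SER.exists_diag_eig h
  refine ⟨U, h1, h2, fun l => ?_⟩
  have e1 : Matrix.diagonal (fun i => ((h.eigenvalues i - l : ℝ) : ℂ)) =
      Matrix.diagonal (fun i => (h.eigenvalues i : ℂ)) - (l : ℂ) • (1 : Matrix ι ι ℂ) := by
    ext i j
    by_cases hij : i = j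
    · subst hij; simp
    · simp [hij]
  rw [e1, ← h3]
  have e2 : U * (Uᴴ * X * U - (l : ℂ) • (1 : Matrix ι ι ℂ)) * Uᴴ =
      (U * Uᴴ) * X * (U * Uᴴ) - (l : ℂ) • (U * Uᴴ) := by
    rw [mul_sub, sub_mul, Matrix.mul_smul, Matrix.smul_mul, mul_one]
    congr 1
    noncomm_ring
  rw [e2, h1, one_mul, mul_one]

theorem psd_diag {c : ι → ℝ} (hc : ∀ i, 0 ≤ c i) (U : Matrix ι ι ℂ) :
    (U * (Matrix.diagonal (fun i => ((c i : ℝ) : ℂ))) * Uᴴ).PosSemidef := by
  refine Matrix.PosSemidef.mul_mul_conjTranspose_same ?_ U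
  rw [Matrix.posSemidef_diagonal_iff]
  intro i
  exact_mod_cast hc i

theorem psd_shift {X : Matrix ι ι ℂ} (h : X.IsHermitian) {l : ℝ} (hl : ∀ i, l ≤ h.eigenvalues i) :
    (X - (l : ℂ) • (1 : Matrix ι ι ℂ)).PosSemidef := by
  obtain ⟨U, -, -, h3⟩ := shift_eq h
  rw [h3]
  exact psd_diag (fun i => sub_nonneg.2 (hl i)) U

theorem psd_shift' {X : Matrix ι ι ℂ} (h : X.IsHermitian) {l : ℝ} (hl : ∀ i, h.eigenvalues i ≤ l) :
    ((l : ℂ) • (1 : Matrix ι ι ℂ) - X).PosSemidef := by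
  obtain ⟨U, -, -, h3⟩ := shift_eq h
  have e : (l : ℂ) • (1 : Matrix ι ι ℂ) - X =
      U * (Matrix.diagonal (fun i => ((l - h.eigenvalues i : ℝ) : ℂ))) * Uᴴ := by
    have e1 : Matrix.diagonal (fun i => ((l - h.eigenvalues i : ℝ) : ℂ)) =
        -Matrix.diagonal (fun i => ((h.eigenvalues i - l : ℝ) : ℂ)) := by
      ext i j
      by_cases hij : i = j
      · subst hij; simp
      · simp [hij]
    rw [e1, Matrix.mul_neg, Matrix.neg_mul, ← h3, neg_sub]
  rw [e]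
  exact psd_diag (fun i => sub_nonneg.2 (hl i)) U

theorem psd_real {X : Matrix ι ι ℂ} (h : X.PosSemidef) {r : ℝ} (hr : 0 ≤ r) :
    ((r : ℂ) • X).PosSemidef := h.smul (by exact_mod_cast hr)

/-- a positive definite matrix is bounded below -/
theorem pd_low {H : Matrix ι ι ℂ} (hH : H.PosDef) :
    ∃ h : ℝ, 0 < h ∧ (H - (h : ℂ) • (1 : Matrix ι ι ℂ)).PosSemidef := by
  rcases isEmpty_or_nonempty ι with hi | hi
  · refine ⟨1, one_pos, ?_⟩
    refine psd_shift hH.isHermitian fun i => ?_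
    exact isEmptyElim i
  · obtain ⟨i, hi⟩ := Finite.exists_min hH.isHermitian.eigenvalues
    exact ⟨_, hH.eigenvalues_pos i, psd_shift hH.isHermitian hi⟩

theorem herm_up {C : Matrix ι ι ℂ} (hC : C.IsHermitian) :
    ∃ c : ℝ, 0 < c ∧ ((c : ℂ) • (1 : Matrix ι ι ℂ) - C).PosSemidef := by
  refine ⟨∑ i, |hC.eigenvalues i| + 1, ?_, psd_shift' hC fun i => ?_⟩
  · have := Finset.sum_nonneg fun i (_ : i ∈ Finset.univ) => abs_nonneg (hC.eigenvalues i)
    linarith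
  · have h1 := Finset.single_le_sum (f := fun i => |hC.eigenvalues i|)
      (fun _ _ => abs_nonneg _) (Finset.mem_univ i)
    have h2 := le_abs_self (hC.eigenvalues i)
    linarith

/-- for a hermitian `C` and a positive definite `H` the pencil `C - s H` is negative for large `s` -/
theorem neg_large {C H : Matrix ι ι ℂ} (hC : C.IsHermitian) (hH : H.PosDef) :
    ∃ S : ℝ, 0 < S ∧ ∀ s, S ≤ s → ((s : ℂ) • H - C).PosSemidef := by
  obtain ⟨h, h0, h1⟩ := pd_low hH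
  obtain ⟨c, c0, c1⟩ := herm_up hC
  refine ⟨c / h, div_pos c0 h0, fun s hs => ?_⟩
  have hs0 : 0 ≤ s := (div_pos c0 h0).le.trans hs
  have hcs : 0 ≤ s * h - c := by
    rw [div_le_iff₀ h0] at hs
    linarith
  have e : (s : ℂ) • H - C = (s : ℂ) • (H - (h : ℂ) • (1 : Matrix ι ι ℂ)) +
      ((s * h - c : ℝ) : ℂ) • (1 : Matrix ι ι ℂ) + ((c : ℂ) • (1 : Matrix ι ι ℂ) - C) := by
    push_cast
    module
  rw [e]
  exact ((psd_real h1 hs0).add (psd_real Matrix.PosSemidef.one hcs)).add c1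

theorem trF_neg {X : Matrix ι ι ℂ} (hX : (-X).PosSemidef) {f : ℝ → ℝ}
    (hf : ∀ x ≤ 0, f x = 0) : trF f X = 0 := by
  have h : X.IsHermitian := by
    have := hX.isHermitian.neg
    rwa [neg_neg] at this
  rw [trF_eq _ h]
  refine Finset.sum_eq_zero fun i _ => hf _ ?_
  have h1 := hX.re_dotProduct_nonneg (h.eigenvectorBasis i)
  have h2 := h.eigenvalues_eq i
  rw [h2]
  rw [Matrix.neg_mulVec, dotProduct_neg, map_neg] at h1
  exact neg_nonneg.1 h1

end Pool.Agent.GC
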