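import Pool.Agent.Lib_helper33.GC.C1t
set_option autoImplicit false

open scoped BigOperators ComplexOrder Kronecker MatrixOrder Topology
open MeasureTheory Set Matrix Filter

namespace Pool.Agent.GC

open Pool.Agent.RC

/-- the constant of the integral representation of `x ^ q`, `1 < q < 2` -/
noncomputable def cq (q : ℝ) : ℝ := (∫ t in Ioi (0 : ℝ), Real.rpowIntegrand₀₁ (q - 1) t 1)⁻¹

theorem cq_pos {q : ℝ} (hq : q ∈ Ioo (1 : ℝ) 2) : 0 < cq q :=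
  inv_pos.2 (Real.integral_rpowIntegrand₀₁_one_pos ⟨by linarith [hq.1], by linarith [hq.2]⟩)

/-- the scaled integrand -/
noncomputable def kq (q g x σ : ℝ) : ℝ :=
  σ ^ q * (g ^ (q + 3) * (x + σ * g)⁻¹ - g ^ (q + 2) / σ + g ^ (q + 1) * x / σ ^ 2)

theorem kq_scale (q : ℝ) {g x σ : ℝ} (hg : 0 < g) (hx : 0 ≤ x) (hσ : 0 < σ) :
    kq q g x σ = g ^ 3 * Real.rpowIntegrand₁₂ q (g * σ) x := by
  unfold kq Real.rpowIntegrand₁₂
  have h1 : σ ^ q = σ ^ (q - 1) * σ := by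
    rw [← Real.rpow_add_one hσ.ne']
    congr 1
    ring
  have h2 : g ^ (q + 3) = g ^ (q - 1) * g ^ 4 := by
    rw [← Real.rpow_natCast, ← Real.rpow_add hg]
    congr 1
    push_cast
    ring
  have h3 : g ^ (q + 2) = g ^ (q - 1) * g ^ 3 := by
    rw [← Real.rpow_natCast, ← Real.rpow_add hg]
    congr 1
    push_cast
    ring
  have h4 : g ^ (q + 1) = g ^ (q - 1) * g ^ 2 := by
    rw [← Real.rpow_natCast, ← Real.rpow_add hg]
    congr 1
    push_cast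
    ring
  rw [h1, h2, h3, h4, Real.mul_rpow hg.le hσ.le, add_comm (g * σ) x, mul_comm σ g]
  have h5 : x + g * σ ≠ 0 := by positivity
  field_simp
  ring

theorem kq_int {q : ℝ} (hq : q ∈ Ioo (1 : ℝ) 2) {g x : ℝ} (hg : 0 < g) (hx : 0 ≤ x) :
    IntegrableOn (kq q g x) (Ioi 0) := by
  have h1 := (integrableOn_Ioi_comp_mul_left_iff (fun t => Real.rpowIntegrand₁₂ q t x) 0 hg).2
    (by rw [mul_zero]; exact Real.integrableOn_rpowIntegrand₁₂ hq hx)
  have h2 : IntegrableOn (fun σ => g ^ 3 * Real.rpowIntegrand₁₂ q (g * σ) x) (Ioi 0) :=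
    h1.const_mul _
  exact h2.congr_fun (fun σ hσ => (kq_scale q hg hx hσ).symm) measurableSet_Ioi

/-- the scaled integral representation -/
theorem kq_eq {q : ℝ} (hq : q ∈ Ioo (1 : ℝ) 2) {g x : ℝ} (hg : 0 < g) (hx : 0 ≤ x) :
    g ^ 2 * x ^ q = cq q * ∫ σ in Ioi (0 : ℝ), kq q g x σ := by
  have h1 := integral_comp_mul_left_Ioi (fun t => Real.rpowIntegrand₁₂ q t x) 0 hg
  rw [mul_zero] at h1
  have h2 : ∫ σ in Ioi (0 : ℝ), kq q g x σ =
      g ^ 3 * ∫ σ in Ioi (0 : ℝ), Real.rpowIntegrand₁₂ q (g * σ) x := by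
    rw [← integral_const_mul]
    exact setIntegral_congr_fun measurableSet_Ioi fun σ hσ => kq_scale q hg hx hσ
  rw [h2, h1, Real.rpow_eq_const_mul_integral_rpowIntegrand₁₂ hq hx, smul_eq_mul]
  unfold cq
  field_simp

variable {n : Type} [Fintype n] [DecidableEq n]

/-- the quadratic form -/
noncomputable def qf (M : Matrix n n ℂ) (w : n → ℂ) : ℝ := (star w ⬝ᵥ (M *ᵥ w)).re

theorem qf_diag (U : Matrix n n ℂ) (c : n → ℝ) (w : n → ℂ) :
    qf (U * Matrix.diagonal (fun i => ((c i : ℝ) : ℂ)) * Uᴴ) w =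
      ∑ i, c i * ‖(Uᴴ *ᵥ w) i‖ ^ 2 := by
  unfold qf
  have e : star w ⬝ᵥ ((U * Matrix.diagonal (fun i => ((c i : ℝ) : ℂ)) * Uᴴ) *ᵥ w) =
      star (Uᴴ *ᵥ w) ⬝ᵥ (Matrix.diagonal (fun i => ((c i : ℝ) : ℂ)) *ᵥ (Uᴴ *ᵥ w)) := by
    rw [Matrix.star_mulVec, Matrix.conjTranspose_conjTranspose, ← Matrix.mulVec_mulVec,
      ← Matrix.mulVec_mulVec, Matrix.dotProduct_mulVec]
  rw [e, dotProduct, Complex.re_sum]
  refine Finset.sum_congr rfl fun i _ => ?_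
  rw [Matrix.mulVec_diagonal, Pi.star_apply, mul_left_comm, Complex.star_def,
    ← Complex.normSq_eq_conj_mul_self, Complex.normSq_eq_norm_sq]
  rw [← Complex.ofReal_mul, Complex.ofReal_re]

/-- the spectral data of a hermitian matrix -/
theorem spec {M : Matrix n n ℂ} (h : M.IsHermitian) : ∃ U : Matrix n n ℂ, U * Uᴴ = 1 ∧ Uᴴ * U = 1 ∧
    M = U * Matrix.diagonal (fun i => ((h.eigenvalues i : ℝ) : ℂ)) * Uᴴ ∧
    ∀ f : ℝ → ℝ, cfc f M = U * Matrix.diagonal (fun i => ((f (h.eigenvalues i) : ℝ) : ℂ)) * Uᴴ := by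
  have h1 : (h.eigenvectorUnitary : Matrix n n ℂ) * (h.eigenvectorUnitary : Matrix n n ℂ)ᴴ = 1 :=
    (Matrix.mem_unitaryGroup_iff).1 h.eigenvectorUnitary.2
  have h2 : (h.eigenvectorUnitary : Matrix n n ℂ)ᴴ * (h.eigenvectorUnitary : Matrix n n ℂ) = 1 :=
    (Matrix.mem_unitaryGroup_iff').1 h.eigenvectorUnitary.2
  refine ⟨(h.eigenvectorUnitary : Matrix n n ℂ), h1, h2, ?_, fun f => ?_⟩
  · have h3 := h.conjStarAlgAut_star_eigenvectorUnitary
    rw [Unitary.conjStarAlgAut_star_apply] at h3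
    have h4 : (h.eigenvectorUnitary : Matrix n n ℂ)ᴴ * M * (h.eigenvectorUnitary : Matrix n n ℂ) =
        Matrix.diagonal (fun i => ((h.eigenvalues i : ℝ) : ℂ)) := by
      rw [← Matrix.star_eq_conjTranspose, h3]
      rfl
    rw [← h4]
    calc M = ((h.eigenvectorUnitary : Matrix n n ℂ) * (h.eigenvectorUnitary : Matrix n n ℂ)ᴴ) * M *
          ((h.eigenvectorUnitary : Matrix n n ℂ) * (h.eigenvectorUnitary : Matrix n n ℂ)ᴴ) := by
          rw [h1]; simp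
      _ = _ := by noncomm_ring
  · rw [h.cfc_eq, Matrix.IsHermitian.cfc, Unitary.conjStarAlgAut_apply]
    rfl

theorem inv_shift {U : Matrix n n ℂ} (h1 : U * Uᴴ = 1) (h2 : Uᴴ * U = 1) {c : n → ℝ} {r : ℝ}
    (hc : ∀ i, c i + r ≠ 0) :
    (U * Matrix.diagonal (fun i => ((c i : ℝ) : ℂ)) * Uᴴ + (r : ℂ) • (1 : Matrix n n ℂ))⁻¹ =
      U * Matrix.diagonal (fun i => (((c i + r)⁻¹ : ℝ) : ℂ)) * Uᴴ := by
  refine Matrix.inv_eq_right_inv ?_
  have e1 : U * Matrix.diagonal (fun i => ((c i : ℝ) : ℂ)) * Uᴴ + (r : ℂ) • (1 : Matrix n n ℂ) =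
      U * Matrix.diagonal (fun i => ((c i + r : ℝ) : ℂ)) * Uᴴ := by
    have e2 : Matrix.diagonal (fun i => ((c i + r : ℝ) : ℂ)) =
        Matrix.diagonal (fun i => ((c i : ℝ) : ℂ)) + (r : ℂ) • (1 : Matrix n n ℂ) := by
      ext i j
      by_cases hij : i = j
      · subst hij; simp
      · simp [hij]
    rw [e2, mul_add, add_mul, Matrix.mul_smul, Matrix.smul_mul, mul_one, h1]
  rw [e1]
  calc U * Matrix.diagonal (fun i => ((c i + r : ℝ) : ℂ)) * Uᴴ *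
      (U * Matrix.diagonal (fun i => (((c i + r)⁻¹ : ℝ) : ℂ)) * Uᴴ) =
      U * Matrix.diagonal (fun i => ((c i + r : ℝ) : ℂ)) * (Uᴴ * U) *
        Matrix.diagonal (fun i => (((c i + r)⁻¹ : ℝ) : ℂ)) * Uᴴ := by noncomm_ring
    _ = U * (Matrix.diagonal (fun i => ((c i + r : ℝ) : ℂ)) *
        Matrix.diagonal (fun i => (((c i + r)⁻¹ : ℝ) : ℂ))) * Uᴴ := by
        rw [h2, mul_one, mul_assoc U]
    _ = 1 := by
        rw [Matrix.diagonal_mul_diagonal]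
        have e3 : (fun i => ((c i + r : ℝ) : ℂ) * (((c i + r)⁻¹ : ℝ) : ℂ)) = fun _ => 1 := by
          funext i
          rw [← Complex.ofReal_mul, mul_inv_cancel₀ (hc i), Complex.ofReal_one]
        rw [e3, Matrix.diagonal_one, mul_one, h1]

/-- BLOCK C2: the integral representation on the quantum side -/
theorem qside {q : ℝ} (hq : q ∈ Ioo (1 : ℝ) 2) {M : Matrix n n ℂ} (hM : M.PosDef) {κ : Type}
    [Fintype κ] {g : κ → ℝ} (hg : ∀ k, 0 < g k) (w : κ → n → ℂ) :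
    IntegrableOn (fun σ : ℝ => σ ^ q * ∑ k, (g k ^ (q + 3) *
      qf ((M + ((σ * g k : ℝ) : ℂ) • (1 : Matrix n n ℂ))⁻¹) (w k) -
      g k ^ (q + 2) * qf 1 (w k) / σ + g k ^ (q + 1) * qf M (w k) / σ ^ 2)) (Ioi 0) ∧
    ∑ k, g k ^ 2 * qf (cfc (fun x : ℝ => x ^ q) M) (w k) =
      cq q * ∫ σ in Ioi (0 : ℝ), σ ^ q * ∑ k, (g k ^ (q + 3) *
      qf ((M + ((σ * g k : ℝ) : ℂ) • (1 : Matrix n n ℂ))⁻¹) (w k) -
      g k ^ (q + 2) * qf 1 (w k) / σ + g k ^ (q + 1) * qf M (w k) / σ ^ 2) := by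
  have h := hM.isHermitian
  obtain ⟨U, h1, h2, h3, h4⟩ := spec h
  have hev : ∀ i, 0 < h.eigenvalues i := hM.eigenvalues_pos
  generalize h.eigenvalues = m at h3 h4 hev
  set y : κ → n → ℝ := fun k i => ‖(Uᴴ *ᵥ (w k)) i‖ ^ 2 with hy
  have q1 : ∀ k, qf 1 (w k) = ∑ i, y k i := by
    intro k
    have e : (1 : Matrix n n ℂ) = U * Matrix.diagonal (fun i => (((fun _ => (1 : ℝ)) i : ℝ) : ℂ)) * Uᴴ := by
      simp [h1]
    rw [e, qf_diag]
    exact Finset.sum_congr rfl fun i _ => one_mul _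
  have q2 : ∀ k, qf M (w k) = ∑ i, m i * y k i := fun k => by
    rw [h3, qf_diag]
  have q3 : ∀ k σ, 0 < σ → qf ((M + ((σ * g k : ℝ) : ℂ) • (1 : Matrix n n ℂ))⁻¹) (w k) =
      ∑ i, (m i + σ * g k)⁻¹ * y k i := fun k σ hσ => by
    rw [h3, inv_shift h1 h2 (fun i => (add_pos (hev i) (mul_pos hσ (hg k))).ne'), qf_diag]
  have q4 : ∀ k, qf (cfc (fun x : ℝ => x ^ q) M) (w k) = ∑ i, m i ^ q * y k i := fun k => by
    rw [h4, qf_diag]
  have key : ∀ σ : ℝ, 0 < σ → σ ^ q * ∑ k, (g k ^ (q + 3) *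
      qf ((M + ((σ * g k : ℝ) : ℂ) • (1 : Matrix n n ℂ))⁻¹) (w k) -
      g k ^ (q + 2) * qf 1 (w k) / σ + g k ^ (q + 1) * qf M (w k) / σ ^ 2) =
      ∑ k, ∑ i, y k i * kq q (g k) (m i) σ := by
    intro σ hσ
    rw [Finset.mul_sum]
    refine Finset.sum_congr rfl fun k _ => ?_
    rw [q1, q2, q3 k σ hσ, Finset.mul_sum, Finset.mul_sum, Finset.mul_sum, Finset.sum_div,
      Finset.sum_div, ← Finset.sum_sub_distrib, ← Finset.sum_add_distrib, Finset.mul_sum]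
    refine Finset.sum_congr rfl fun i _ => ?_
    unfold kq
    ring
  have hi : ∀ k i, IntegrableOn (fun σ => y k i * kq q (g k) (m i) σ) (Ioi 0) := fun k i =>
    (kq_int hq (hg k) (hev i).le).const_mul _
  have hI : IntegrableOn (fun σ => ∑ k, ∑ i, y k i * kq q (g k) (m i) σ) (Ioi 0) :=
    integrable_finsetSum _ fun k _ => integrable_finsetSum _ fun i _ => hi k i
  refine ⟨hI.congr_fun (fun σ hσ => (key σ hσ).symm) measurableSet_Ioi, ?_⟩
  rw [setIntegral_congr_fun measurableSet_Ioi key,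
    integral_finsetSum _ fun k _ => integrable_finsetSum _ fun i _ => hi k i, Finset.mul_sum]
  refine Finset.sum_congr rfl fun k _ => ?_
  rw [integral_finsetSum _ fun i _ => hi k i, q4, Finset.mul_sum, Finset.mul_sum]
  refine Finset.sum_congr rfl fun i _ => ?_
  rw [integral_const_mul, ← mul_assoc, kq_eq hq (hg k) (hev i).le]
  ring

end Pool.Agent.GC
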