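import Pool.Agent.Lib_helper33.GC.W1
set_option autoImplicit false

/-! Block C2: the quantum side in a diagonal frame -/

open scoped BigOperators ComplexOrder Kronecker MatrixOrder Topology
open MeasureTheory Set Matrix Filter

namespace Pool.Agent.Lib_helper33.GC34

open Pool.Agent.RC Pool.Agent.GC34

variable {ι κ : Type} [Fintype ι] [DecidableEq ι] [Fintype κ] [DecidableEq κ]

omit [Fintype ι] [DecidableEq ι] [Fintype κ] [DecidableEq κ] in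
theorem H33.two_M (A B : Matrix ι ι ℂ) (C D : Matrix κ κ ℂ) :
    A ⊗ₖ C + B ⊗ₖ D = (1 / 2 : ℝ) • ((A + B) ⊗ₖ (C + D) + (A - B) ⊗ₖ (C - D)) := by
  ext ⟨i, k⟩ ⟨j, l⟩
  simp only [Matrix.add_apply, Matrix.smul_apply, Matrix.kroneckerMap_apply, Matrix.sub_apply]
  rw [Complex.real_smul]
  push_cast
  ring

omit [DecidableEq ι] [DecidableEq κ] in
theorem H33.M_pd {A B : Matrix ι ι ℂ} {C D : Matrix κ κ ℂ} (hV : Strict A B) (hW : Strict C D) :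
    (A ⊗ₖ C + B ⊗ₖ D).PosDef := by
  rw [H33.two_M]
  exact ((hV.add.kronecker hW.add).add (hV.sub.kronecker hW.sub)).smul (by norm_num)

omit [DecidableEq ι] in
theorem H33.wv_mulVec (A : Matrix ι ι ℂ) (C : Matrix κ κ ℂ) (u : ι → ℂ) (k : κ) (x : ι × κ) :
    ((A ⊗ₖ C) *ᵥ (wv u k)) x = (A *ᵥ u) x.1 * C x.2 k := by
  unfold Matrix.mulVec dotProduct wv
  rw [Fintype.sum_prod_type, Finset.sum_mul]
  refine Finset.sum_congr rfl fun j _ => ?_
  rw [Finset.sum_eq_single k]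
  · simp only [Matrix.kroneckerMap_apply, if_true]
    ring
  · intro l _ hl
    simp [hl]
  · intro h
    exact absurd (Finset.mem_univ k) h

omit [DecidableEq ι] in
/-- the extreme eigenvector: `M (u ⊗ e_k) = g_k (A u ⊗ e_k)` -/
theorem H33.M_wv {A B : Matrix ι ι ℂ} {D : Matrix κ κ ℂ} {g : κ → ℝ} {lam : ℝ} (u : ι → ℂ)
    (hu : B *ᵥ u = lam • (A *ᵥ u)) (k : κ) :
    (A ⊗ₖ (dg g - lam • D) + B ⊗ₖ D) *ᵥ (wv u k) = ((g k : ℝ) : ℂ) • wv (A *ᵥ u) k := by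
  funext x
  rw [Matrix.add_mulVec, Pi.add_apply, H33.wv_mulVec, H33.wv_mulVec, hu]
  simp only [Pi.smul_apply, Matrix.sub_apply, Matrix.smul_apply, wv, dg]
  rw [Complex.real_smul, Complex.real_smul, smul_eq_mul]
  by_cases h : x.2 = k
  · rw [h]
    simp only [Matrix.diagonal_apply_eq, if_true]
    ring
  · rw [Matrix.diagonal_apply_ne _ h, if_neg h]
    ring

omit [DecidableEq ι] in
theorem H33.qf_sandwich {X Y : Matrix ι ι ℂ} (hX : X.IsHermitian) (w w' : ι → ℂ) (r : ℝ)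
    (h : X *ᵥ w = ((r : ℝ) : ℂ) • w') : qf (X * Y * X) w = r ^ 2 * qf Y w' := by
  have h1 : star w ᵥ* X = ((r : ℝ) : ℂ) • star w' := by
    have h2 := Matrix.star_mulVec X w
    rw [hX.eq] at h2
    rw [← h2, h, star_smul]
    simp
  unfold qf
  rw [← Matrix.mulVec_mulVec, h, ← Matrix.mulVec_mulVec, Matrix.dotProduct_mulVec, h1,
    Matrix.mulVec_smul, dotProduct_smul, smul_dotProduct, smul_eq_mul, smul_eq_mul,
    Complex.re_ofReal_mul, Complex.re_ofReal_mul]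
  ring

/-- `x^p = x * x^(p-2) * x` for a positive definite matrix -/
theorem H33.cfc_split {M : Matrix ι ι ℂ} (hM : M.PosDef) (p : ℝ) :
    cfc (fun x : ℝ => x ^ p) M = M * cfc (fun x : ℝ => x ^ (p - 2)) M * M := by
  obtain ⟨U, h1, h2, h3, h4⟩ := GC.spec hM.isHermitian
  have h5 := h4 (fun x => x)
  have h6 : ∀ a b : ι → ℝ, U * Matrix.diagonal (fun i => ((a i : ℝ) : ℂ)) * Uᴴ *
      (U * Matrix.diagonal (fun i => ((b i : ℝ) : ℂ)) * Uᴴ) =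
      U * Matrix.diagonal (fun i => ((a i * b i : ℝ) : ℂ)) * Uᴴ := by
    intro a b
    have e : U * Matrix.diagonal (fun i => ((a i : ℝ) : ℂ)) * Uᴴ *
      (U * Matrix.diagonal (fun i => ((b i : ℝ) : ℂ)) * Uᴴ) =
      U * (Matrix.diagonal (fun i => ((a i : ℝ) : ℂ)) * (Uᴴ * U) *
        Matrix.diagonal (fun i => ((b i : ℝ) : ℂ))) * Uᴴ := by
      simp only [Matrix.mul_assoc]
    rw [e, h2, Matrix.mul_one, Matrix.diagonal_mul_diagonal]
    congr 3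
    funext i
    push_cast
    rfl
  have key : U * Matrix.diagonal (fun i => ((hM.isHermitian.eigenvalues i : ℝ) : ℂ)) * Uᴴ *
      cfc (fun x : ℝ => x ^ (p - 2)) M *
      (U * Matrix.diagonal (fun i => ((hM.isHermitian.eigenvalues i : ℝ) : ℂ)) * Uᴴ) =
      cfc (fun x : ℝ => x ^ p) M := by
    rw [h4, h4, h6, h6]
    congr 3
    funext i
    have hi := hM.eigenvalues_pos i
    congr 1
    have h7 := Real.rpow_add hi 2 (p - 2)
    rw [add_sub_cancel, Real.rpow_two] at h7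
    rw [h7]
    ring
  rw [← key, ← h3]

omit [DecidableEq ι] in
theorem H33.qf_one_wv (v : ι → ℂ) (k : κ) [DecidableEq ι] :
    qf (1 : Matrix (ι × κ) (ι × κ) ℂ) (wv v k) = qf (1 : Matrix ι ι ℂ) v := by
  unfold qf
  rw [Matrix.one_mulVec, Matrix.one_mulVec]
  congr 1
  unfold dotProduct wv
  rw [Fintype.sum_prod_type]
  refine Finset.sum_congr rfl fun j _ => ?_
  rw [Finset.sum_eq_single k]
  · simp
  · intro l _ hl
    simp [hl]
  · intro h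
    exact absurd (Finset.mem_univ k) h

/-- the quantum side in a diagonal frame: `B u = lam A u`, `v = A u` -/
theorem kq_diag {p : ℝ} (h3 : 3 < p) (h4 : p < 4) {A B : Matrix ι ι ℂ} {D : Matrix κ κ ℂ}
    {g : κ → ℝ} {lam : ℝ} (hV : Strict A B) (hW : Strict (dg g - lam • D) D)
    (hg : ∀ k, 0 < g k) (u : ι → ℂ) (hu : B *ᵥ u = lam • (A *ᵥ u)) :
    IntegrableOn (fun σ : ℝ => σ ^ (p - 2) *
      (Qf A B (dg g - lam • D) D g (A *ᵥ u) σ (fun c => c ^ (p + 1)) -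
        (∑ k, g k ^ p) * qf 1 (A *ᵥ u) / σ +
        (∑ k, g k ^ (p - 1) * qf (A ⊗ₖ (dg g - lam • D) + B ⊗ₖ D) (wv (A *ᵥ u) k)) / σ ^ 2))
      (Ioi 0) ∧
    ∑ k : κ, qf (cfc (fun x : ℝ => x ^ p) (A ⊗ₖ (dg g - lam • D) + B ⊗ₖ D)) (wv u k) =
    cq (p - 2) * ∫ σ in Ioi (0 : ℝ), σ ^ (p - 2) *
      (Qf A B (dg g - lam • D) D g (A *ᵥ u) σ (fun c => c ^ (p + 1)) -
        (∑ k, g k ^ p) * qf 1 (A *ᵥ u) / σ +
        (∑ k, g k ^ (p - 1) * qf (A ⊗ₖ (dg g - lam • D) + B ⊗ₖ D) (wv (A *ᵥ u) k)) / σ ^ 2) := by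
  have hM : (A ⊗ₖ (dg g - lam • D) + B ⊗ₖ D).PosDef := H33.M_pd hV hW
  obtain ⟨h5, h6⟩ := GC.qside (q := p - 2) ⟨by linarith, by linarith⟩ hM hg
    (fun k => wv (A *ᵥ u) k)
  have e : ∀ σ : ℝ, σ ^ (p - 2) * ∑ k, (g k ^ (p - 2 + 3) *
      GC.qf ((A ⊗ₖ (dg g - lam • D) + B ⊗ₖ D + ((σ * g k : ℝ) : ℂ) •
        (1 : Matrix (ι × κ) (ι × κ) ℂ))⁻¹) (wv (A *ᵥ u) k) -
      g k ^ (p - 2 + 2) * GC.qf 1 (wv (A *ᵥ u) k) / σ +
      g k ^ (p - 2 + 1) * GC.qf (A ⊗ₖ (dg g - lam • D) + B ⊗ₖ D) (wv (A *ᵥ u) k) / σ ^ 2) =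
      σ ^ (p - 2) * (Qf A B (dg g - lam • D) D g (A *ᵥ u) σ (fun c => c ^ (p + 1)) -
        (∑ k, g k ^ p) * qf 1 (A *ᵥ u) / σ +
        (∑ k, g k ^ (p - 1) * qf (A ⊗ₖ (dg g - lam • D) + B ⊗ₖ D) (wv (A *ᵥ u) k)) / σ ^ 2) := by
    intro σ
    congr 1
    unfold Qf
    rw [Finset.sum_mul, Finset.sum_div, Finset.sum_div, ← Finset.sum_sub_distrib,
      ← Finset.sum_add_distrib]
    refine Finset.sum_congr rfl fun k _ => ?_
    rw [← H33.qf_eq, ← H33.qf_eq, ← H33.qf_eq, H33.qf_one_wv, ← H33.rsmul]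
    rw [show p - 2 + 3 = p + 1 by ring, show p - 2 + 2 = p by ring,
      show p - 2 + 1 = p - 1 by ring]
  simp only [e] at h5 h6
  refine ⟨h5, ?_⟩
  rw [H33.cq_eq (by linarith) (by linarith), ← h6]
  refine Finset.sum_congr rfl fun k _ => ?_
  rw [H33.cfc_split hM, H33.qf_sandwich hM.isHermitian _ _ _ (H33.M_wv u hu k)]
  rfl

end Pool.Agent.Lib_helper33.GC34
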