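import Pool.Agent.Lib_helper31.GC34.Defs2
import Pool.Agent.Lib_helper33.GC.W2
import Pool.Agent.Lib_helper98.RenyiCfc
set_option autoImplicit false

/-! Block C4: the quantum side, basis free -/

open scoped BigOperators ComplexOrder Kronecker MatrixOrder Topology
open MeasureTheory Set Matrix Filter

namespace Pool.Agent.Lib_helper33.GC34

open Pool.Agent.RC Pool.Agent.GC34

variable {ι κ : Type} [Fintype ι] [DecidableEq ι] [Fintype κ] [DecidableEq κ]

theorem cfc_conj {U X : Matrix ι ι ℂ} (hU : Uᴴ * U = 1) (hX : X.IsHermitian) (f : ℝ → ℝ) :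
    cfc f (U * X * Uᴴ) = U * cfc f X * Uᴴ := by
  obtain ⟨V, -, h2, h3, h4⟩ := GC.spec hX
  have h5 : (U * V)ᴴ * (U * V) = 1 := by
    rw [Matrix.conjTranspose_mul, Matrix.mul_assoc, ← Matrix.mul_assoc Uᴴ, hU, Matrix.one_mul, h2]
  have e : U * X * Uᴴ = (U * V) * Matrix.diagonal (fun i => ((hX.eigenvalues i : ℝ) : ℂ)) *
      (U * V)ᴴ := by
    rw [Matrix.conjTranspose_mul]
    conv_lhs => rw [h3]
    simp only [Matrix.mul_assoc]
  rw [e, Lib_helper98.Renyi.cfc_conj_diagonal f (U * V) h5, h4, Matrix.conjTranspose_mul]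
  simp only [Matrix.mul_assoc]

theorem tf_conj {U X : Matrix ι ι ℂ} (hU : Uᴴ * U = 1) (hX : X.IsHermitian) (f : ℝ → ℝ) :
    tf f (U * X * Uᴴ) = tf f X := by
  unfold tf
  rw [cfc_conj hU hX, Matrix.trace_mul_comm, ← Matrix.mul_assoc, hU, Matrix.one_mul]

theorem Rr_conj {U F E : Matrix ι ι ℂ} (hU : Uᴴ * U = 1) (hF : F.IsHermitian)
    (hE : E.IsHermitian) (p : ℝ) : Rr p (U * F * Uᴴ) (U * E * Uᴴ) = Rr p F E := by
  unfold Rr
  congr 1
  refine setIntegral_congr_fun measurableSet_Ioi fun s _ => ?_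
  show tf _ _ = tf _ _
  have e : U * F * Uᴴ - s • (U * E * Uᴴ) = U * (F - s • E) * Uᴴ := by
    rw [Matrix.mul_sub, Matrix.sub_mul, Matrix.mul_smul, Matrix.smul_mul]
  rw [e, tf_conj hU]
  rw [H33.rsmul]
  exact GC.herm_line hF hE s

omit [DecidableEq ι] in
theorem qf_trace (Y : Matrix ι ι ℂ) (w : ι → ℂ) :
    qf Y w = (vecMulVec w (star w) * Y).trace.re := by
  unfold qf
  rw [Matrix.vecMulVec_mul, Matrix.trace_vecMulVec, Matrix.dotProduct_mulVec, dotProduct_comm]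

omit [Fintype ι] [DecidableEq ι] in
theorem sum_wv (u : ι → ℂ) :
    ∑ k : κ, vecMulVec (wv u k) (star (wv u k)) =
      vecMulVec u (star u) ⊗ₖ (1 : Matrix κ κ ℂ) := by
  ext x y
  rw [Matrix.sum_apply, Finset.sum_eq_single x.2]
  · simp only [Matrix.vecMulVec_apply, wv, if_true, Pi.star_apply, Matrix.kroneckerMap_apply,
      Matrix.one_apply]
    by_cases h : x.2 = y.2
    · rw [if_pos h.symm, if_pos h, mul_one]
    · rw [if_neg (Ne.symm h), if_neg h, star_zero, mul_zero, mul_zero]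
  · intro k _ hk
    simp only [Matrix.vecMulVec_apply, wv, if_neg (Ne.symm hk), zero_mul]
  · intro h
    exact absurd (Finset.mem_univ x.2) h

omit [DecidableEq ι] in
/-- `Tr_W` between `u` and `u` as a trace -/
theorem sum_qf_wv (Y : Matrix (ι × κ) (ι × κ) ℂ) (u : ι → ℂ) :
    ∑ k : κ, qf Y (wv u k) =
      ((vecMulVec u (star u) ⊗ₖ (1 : Matrix κ κ ℂ)) * Y).trace.re := by
  rw [← sum_wv, Finset.sum_mul, Matrix.trace_sum, Complex.re_sum]
  exact Finset.sum_congr rfl fun k _ => qf_trace Y _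

/-- invariance under unitary conjugation on `W` -/
theorem sum_qf_conj {U : Matrix κ κ ℂ} (hU : Uᴴ * U = 1) (Y : Matrix (ι × κ) (ι × κ) ℂ)
    (u : ι → ℂ) :
    ∑ k : κ, qf (((1 : Matrix ι ι ℂ) ⊗ₖ U) * Y * ((1 : Matrix ι ι ℂ) ⊗ₖ U)ᴴ) (wv u k) =
      ∑ k : κ, qf Y (wv u k) := by
  rw [sum_qf_wv, sum_qf_wv, ← Matrix.mul_assoc, ← Matrix.mul_assoc, Matrix.trace_mul_comm,
    ← Matrix.mul_assoc, ← Matrix.mul_assoc]
  have e : ((1 : Matrix ι ι ℂ) ⊗ₖ U)ᴴ * (vecMulVec u (star u) ⊗ₖ (1 : Matrix κ κ ℂ)) *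
      ((1 : Matrix ι ι ℂ) ⊗ₖ U) = vecMulVec u (star u) ⊗ₖ (1 : Matrix κ κ ℂ) := by
    rw [Matrix.conjTranspose_kronecker, ← Matrix.mul_kronecker_mul, ← Matrix.mul_kronecker_mul,
      Matrix.mul_one, Matrix.mul_one, hU, Matrix.conjTranspose_one, Matrix.one_mul]
  rw [e]

omit [DecidableEq ι] in
/-- the form of a Kronecker product at `v ⊗ e_k` -/
theorem qf_kron {A : Matrix ι ι ℂ} (hA : A.IsHermitian) (C : Matrix κ κ ℂ) (v : ι → ℂ) (k : κ) :
    qf (A ⊗ₖ C) (wv v k) = qf A v * (C k k).re := by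
  have e : star (wv v k) ⬝ᵥ ((A ⊗ₖ C) *ᵥ wv v k) = (star v ⬝ᵥ (A *ᵥ v)) * C k k := by
    unfold dotProduct
    rw [Fintype.sum_prod_type, Finset.sum_mul]
    refine Finset.sum_congr rfl fun i _ => ?_
    rw [Finset.sum_eq_single k]
    · rw [H33.wv_mulVec]
      simp only [Pi.star_apply, wv, if_true]
      ring
    · intro l _ hl
      simp only [Pi.star_apply, wv, if_neg hl, star_zero, zero_mul]
    · intro h
      exact absurd (Finset.mem_univ k) h
  have h1 : (star v ⬝ᵥ (A *ᵥ v)).im = 0 := hA.im_star_dotProduct_mulVec_self v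
  unfold qf
  rw [e, Complex.mul_re, h1, zero_mul, sub_zero]

omit [DecidableEq ι] in
theorem qf_add (X Y : Matrix ι ι ℂ) (v : ι → ℂ) : qf (X + Y) v = qf X v + qf Y v := by
  unfold qf
  rw [Matrix.add_mulVec, dotProduct_add, Complex.add_re]

theorem trace_dg_mul (c : κ → ℝ) (X : Matrix κ κ ℂ) :
    (dg c * X).trace.re = ∑ k, c k * (X k k).re := by
  unfold Matrix.trace dg
  rw [Complex.re_sum]
  refine Finset.sum_congr rfl fun k _ => ?_
  rw [Matrix.diag_apply, Matrix.diagonal_mul, Complex.re_ofReal_mul]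

theorem conj_conj {U : Matrix κ κ ℂ} (h1 : U * Uᴴ = 1) (X : Matrix κ κ ℂ) :
    U * (Uᴴ * X * U) * Uᴴ = X := by
  have : U * (Uᴴ * X * U) * Uᴴ = (U * Uᴴ) * X * (U * Uᴴ) := by simp only [Matrix.mul_assoc]
  rw [this, h1, Matrix.one_mul, Matrix.mul_one]

theorem pd_conj {U : Matrix κ κ ℂ} (h1 : U * Uᴴ = 1) {X : Matrix κ κ ℂ} (hX : X.PosDef) :
    (Uᴴ * X * U).PosDef := by
  have hU : IsUnit U := by
    rw [Matrix.isUnit_iff_isUnit_det]
    have h2 := congrArg Matrix.det h1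
    rw [Matrix.det_mul, Matrix.det_one] at h2
    exact IsUnit.of_mul_eq_one _ h2
  exact (Matrix.IsUnit.posDef_star_left_conjugate_iff hU).2 hX

/-- BLOCK C4, with the pointwise inequality as a hypothesis -/
theorem kq_ge_of {p : ℝ} (h3 : 3 < p) (h4 : p < 4) {A B : Matrix ι ι ℂ} {C D : Matrix κ κ ℂ}
    {lam : ℝ} (hpw : ∀ (D' : Matrix κ κ ℂ) (g : κ → ℝ) (σ : ℝ) (S : Matrix ι ι ℂ) (η : ι → ℝ),
      Frame A B D' g lam σ S η → ∀ v : ι → ℂ,
      ∑ i, ‖(S⁻¹ *ᵥ v) i‖ ^ 2 * Rr p (dg g) (dg g - (lam - η i) • D') ≤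
        Qf A B (dg g - lam • D') D' g v σ (fun c => c ^ (p + 1)))
    (hV : Strict A B) (hW : Strict C D) (h1 : -1 < lam) (h1' : lam < 1)
    (hext : (lam • A - B).PosSemidef) (u : ι → ℂ) (hu : B *ᵥ u = lam • (A *ᵥ u)) :
    ∃ Q : ℝ → ℝ, IntegrableOn (fun σ => σ ^ (p - 2) * Q σ) (Ioi 0) ∧
      cq (p - 2) * ∫ σ in Ioi (0 : ℝ), σ ^ (p - 2) * Q σ =
        ∑ k : κ, qf (cfc (fun x : ℝ => x ^ p) (A ⊗ₖ C + B ⊗ₖ D)) (wv u k) ∧
      ∀ σ : ℝ, 0 < σ → ∀ (S : Matrix ι ι ℂ) (η : ι → ℝ), Cg A B lam σ S η →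
        Lo p A B C D lam σ S η (A *ᵥ u) ≤ Q σ := by
  have hC1 : (C + lam • D).PosDef := H33.strict_pd hW h1 h1'
  obtain ⟨U, hU, hU', hs, hcfc⟩ := GC.spec hC1.isHermitian
  set g : κ → ℝ := hC1.isHermitian.eigenvalues with hgdef
  have hg : ∀ k, 0 < g k := hC1.eigenvalues_pos
  have hs' : C + lam • D = U * dg g * Uᴴ := hs
  have hcfc' : ∀ f : ℝ → ℝ, cfc f (C + lam • D) = U * dg (fun k => f (g k)) * Uᴴ := hcfc
  set D' : Matrix κ κ ℂ := Uᴴ * D * U with hD'
  have hC' : Uᴴ * C * U = dg g - lam • D' := by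
    have e1 : Uᴴ * (C + lam • D) * U = dg g := by
      rw [hs']
      have e2 : Uᴴ * (U * dg g * Uᴴ) * U = (Uᴴ * U) * dg g * (Uᴴ * U) := by
        simp only [Matrix.mul_assoc]
      rw [e2, hU', Matrix.one_mul, Matrix.mul_one]
    rw [← e1, hD', Matrix.mul_add, Matrix.add_mul, Matrix.mul_smul, Matrix.smul_mul]
    abel
  have hW' : Strict (dg g - lam • D') D' := by
    refine ⟨?_, ?_⟩
    · have e : dg g - lam • D' + D' = Uᴴ * (C + D) * U := by
        rw [← hC', hD', Matrix.mul_add, Matrix.add_mul]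
      rw [e]
      exact pd_conj hU hW.add
    · have e : dg g - lam • D' - D' = Uᴴ * (C - D) * U := by
        rw [← hC', hD', Matrix.mul_sub, Matrix.sub_mul]
      rw [e]
      exact pd_conj hU hW.sub
  have eC : C = U * (dg g - lam • D') * Uᴴ := by rw [← hC', conj_conj hU]
  have eD : D = U * D' * Uᴴ := by rw [hD', conj_conj hU]
  obtain ⟨hi, he⟩ := kq_diag h3 h4 hV hW' hg u hu
  refine ⟨fun σ => Qf A B (dg g - lam • D') D' g (A *ᵥ u) σ (fun c => c ^ (p + 1)) -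
        (∑ k, g k ^ p) * qf 1 (A *ᵥ u) / σ +
        (∑ k, g k ^ (p - 1) * qf (A ⊗ₖ (dg g - lam • D') + B ⊗ₖ D') (wv (A *ᵥ u) k)) / σ ^ 2,
    hi, ?_, ?_⟩
  · rw [← he]
    have hM : (A ⊗ₖ (dg g - lam • D') + B ⊗ₖ D').IsHermitian := (H33.M_pd hV hW').isHermitian
    have e : A ⊗ₖ C + B ⊗ₖ D = ((1 : Matrix ι ι ℂ) ⊗ₖ U) *
        (A ⊗ₖ (dg g - lam • D') + B ⊗ₖ D') * ((1 : Matrix ι ι ℂ) ⊗ₖ U)ᴴ := by
      rw [Matrix.conjTranspose_kronecker, Matrix.conjTranspose_one, Matrix.mul_add, Matrix.add_mul,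
        ← Matrix.mul_kronecker_mul, ← Matrix.mul_kronecker_mul, ← Matrix.mul_kronecker_mul,
        ← Matrix.mul_kronecker_mul, Matrix.mul_one, Matrix.mul_one, Matrix.one_mul,
        Matrix.one_mul, ← eC, ← eD]
    have hU1 : ((1 : Matrix ι ι ℂ) ⊗ₖ U)ᴴ * ((1 : Matrix ι ι ℂ) ⊗ₖ U) = 1 := by
      rw [Matrix.conjTranspose_kronecker, Matrix.conjTranspose_one, ← Matrix.mul_kronecker_mul,
        Matrix.one_mul, hU', Matrix.one_kronecker_one]
    rw [e, cfc_conj hU1 hM, sum_qf_conj hU']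
  · intro σ hσ S η hS
    have hF : Frame A B D' g lam σ S η :=
      { V := hV, W := hW', gpos := hg, ext := hext, lam_gt := h1, lam_lt := h1', σpos := hσ,
        unit := hS.unit, hA := hS.hA, hB := hS.hB, η_gt := hS.η_gt, η_le := hS.η_le }
    have key := hpw D' g σ S η hF (A *ᵥ u)
    have hgh : (dg g).IsHermitian := H33.dg_herm g
    have e1 : ∀ i, Rr p (C + lam • D) (C + η i • D) =
        Rr p (dg g) (dg g - (lam - η i) • D') := by
      intro i
      have e2 : C + η i • D = U * (dg g - (lam - η i) • D') * Uᴴ := by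
        have e3 : dg g - (lam - η i) • D' = Uᴴ * (C + η i • D) * U := by
          rw [Matrix.mul_add, Matrix.add_mul, Matrix.mul_smul, Matrix.smul_mul, hC', ← hD',
            sub_smul]
          abel
        rw [e3, conj_conj hU]
      rw [hs', e2, Rr_conj hU' hgh]
      exact (H33.frame_pd hW' (hS.η_gt i) ((hS.η_le i).trans_lt h1')).isHermitian
    have e4 : tf (fun x => x ^ p) (C + lam • D) = ∑ k, g k ^ p := by
      unfold tf
      rw [hcfc', Matrix.trace_mul_comm, ← Matrix.mul_assoc, hU', Matrix.one_mul]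
      unfold Matrix.trace dg
      rw [Complex.re_sum]
      exact Finset.sum_congr rfl fun k _ => by
        rw [Matrix.diag_apply, Matrix.diagonal_apply_eq, Complex.ofReal_re]
    have e5 : ∀ X : Matrix κ κ ℂ, (cfc (fun x : ℝ => x ^ (p - 1)) (C + lam • D) *
        (U * X * Uᴴ)).trace.re = ∑ k, g k ^ (p - 1) * (X k k).re := by
      intro X
      rw [hcfc']
      have e6 : U * dg (fun k => g k ^ (p - 1)) * Uᴴ * (U * X * Uᴴ) =
          U * (dg (fun k => g k ^ (p - 1)) * X) * Uᴴ := by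
        calc _ = U * dg (fun k => g k ^ (p - 1)) * (Uᴴ * U) * X * Uᴴ := by
              simp only [Matrix.mul_assoc]
          _ = _ := by rw [hU', Matrix.mul_one]; simp only [Matrix.mul_assoc]
      rw [e6, Matrix.trace_mul_comm, ← Matrix.mul_assoc, hU', Matrix.one_mul, trace_dg_mul]
    have e7 : qf A (A *ᵥ u) * (cfc (fun x : ℝ => x ^ (p - 1)) (C + lam • D) * C).trace.re +
        qf B (A *ᵥ u) * (cfc (fun x : ℝ => x ^ (p - 1)) (C + lam • D) * D).trace.re =
        ∑ k, g k ^ (p - 1) * qf (A ⊗ₖ (dg g - lam • D') + B ⊗ₖ D') (wv (A *ᵥ u) k) := by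
      have hA : A.IsHermitian := by
        have h5 := hV.add.isHermitian.add hV.sub.isHermitian
        have e8 : A = (1 / 2 : ℝ) • ((A + B) + (A - B)) := by
          rw [H33.rsmul]
          ext i j
          simp only [Matrix.add_apply, Matrix.sub_apply, Matrix.smul_apply, smul_eq_mul]
          push_cast
          ring
        rw [e8, Matrix.IsHermitian, Matrix.conjTranspose_smul, h5.eq]
        simp
      have hB : B.IsHermitian := by
        have h5 := hV.add.isHermitian.sub hV.sub.isHermitian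
        have e8 : B = (1 / 2 : ℝ) • ((A + B) - (A - B)) := by
          rw [H33.rsmul]
          ext i j
          simp only [Matrix.add_apply, Matrix.sub_apply, Matrix.smul_apply, smul_eq_mul]
          push_cast
          ring
        rw [e8, Matrix.IsHermitian, Matrix.conjTranspose_smul, h5.eq]
        simp
      have e9 := e5 (dg g - lam • D')
      have e10 := e5 D'
      rw [← eC] at e9
      rw [← eD] at e10
      rw [e9, e10, Finset.mul_sum, Finset.mul_sum, ← Finset.sum_add_distrib]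
      refine Finset.sum_congr rfl fun k _ => ?_
      rw [qf_add, qf_kron hA, qf_kron hB]
      ring
    unfold Lo
    rw [e4, e7]
    simp only [e1]
    show _ ≤ Qf A B (dg g - lam • D') D' g (A *ᵥ u) σ (fun c => c ^ (p + 1)) - _ + _
    have := key
    linarith

end Pool.Agent.Lib_helper33.GC34
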